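import Pool.Agent.V7H35.W32C
import Pool.Agent.N375.AV.D
import Pool.Agent.N375.AV.Ex
import Pool.Agent.N760.IT.D

/-!
# The Ramanujan bound in weight `3/2` near the values of arithmetic functions and the orbits of Euler's function

Let `F` be a cusp form of weight `3/2` on `Γ_0(N)` with any character, with the Fourier coefficients `A(n)`. Q1 asks for the
bound `A(n) ≪ n^{1/4 + ε}` at the squarefree `n`. Let `0 < ε ≤ 1/2`, let `G` have steps bounded below by a positive constant
and growth at most `v ^ d`, for example `G v = v`, and let `κ ≥ 0`, `d (1 - 2 ε) + κ < 1`; for `d = 1` this is `κ < 2 ε`.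

* Let `f` be a positive multiplicative function of at most polynomial growth such that `f p ≤ M p` for the large primes `p`,
  with different values at different large primes; for example Euler's function or the sum of the divisors. For all `m ≤ X`
  but `X / (log X)^U`, the bound `|A(n)| ≤ n^{1/4 + ε}` is true for EVERY integer `n ≥ 1` with `|n - G (f m)| ≤ f(m)^κ`.
* Let `φ_k` be the `k`-th iterate of Euler's function. There is `K(m)` tending to infinity such that for almost all `m`, for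
  all `k ≤ K(m)`, the same is true near `G (v)`, `v = f(φ_k(m))`.
* Let `h = f_1 ∘ ⋯ ∘ f_k` be a composition of functions dominated by the largest prime factor: for example additive functions
  `f` with `f (q^j) ≤ C q^j` at the prime powers, with different values at different large primes (the sum of the prime
  factors), the largest prime factor itself, and Kempner's function. For all `m ≤ X` but `K X exp (- b (log X)^(1 / (k + 1)))`
  the same is true near `G (h m)`.

So for almost all `m` the bound of Q1 holds at `φ(m)`, `σ(m)`, `φ(φ(m))`, …, at the sum of the prime factors of `m` and at the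
largest prime factor of `m`, and at all integers near them. These values are in general taken with very large multiplicities
(and form sets of density zero), and so this does not follow from the mean square of the coefficients.
-/

set_option autoImplicit false

namespace Pool.Agent.Results.MP_af11aa_nt.ArithmeticValuesH35

open Filter UpperHalfPlane
open Pool.Agent.V7H35.W32 (IsCuspForm count)
open Pool.Agent.N733.TG (LM Expanding lm_totient lm_sigma keep_good expanding_pow)
open Pool.Agent.N760.IT (orb lm_id orbit_good)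
open Pool.Agent.N826.IT.Orb (AlmostAll)
open Pool.Agent.N375.AV (PD comp good pd_additive pd_largest pd_kempner)

/-- **The Ramanujan bound in weight `3/2` near the values of arithmetic functions.** Let `F` be a cusp form of weight `3/2` on
`Γ_0(N)` with the character `χ` and the coefficients `A(n)`, `0 < ε ≤ 1/2`, `G` with steps `≥ const > 0` and growth at most
`v ^ d`, `κ ≥ 0` and `d (1 - 2 ε) + κ < 1`. Write `Near v` for: EVERY integer `n ≥ 1` with `|n - G v| ≤ v ^ κ` satisfies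
`|A(n)| ≤ n^{1/4 + ε}`. (1) Let `f` be multiplicative and positive, of at most polynomial growth, with `f p ≤ M p` at the large
primes, and injective there (`LM f`). For all large `X`, for all `m ≤ X` but `X / (log X)^U`, `Near (f m)`. (2) There is
`K(m)` tending to infinity such that for almost all `m`, for all `k ≤ K(m)`, `Near (f(φ_k(m)))`. (3) Let `f_i` be functions
dominated by the largest prime factor (`PD`), `h = f_1 ∘ ⋯ ∘ f_k` (`comp fs`). For all `m ≤ X` but
`K X exp (- b (log X)^(1 / (k + 1)))`, `Near (h m)`. (4) - (7) Examples of functions `f`, `f_i` and `G`. -/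
theorem result :
    (∀ (N : ℕ) (χ : DirichletCharacter ℂ N) (F : ℍ → ℂ) (A : ℕ → ℂ), 1 ≤ N → IsCuspForm N χ F A →
      ∀ ε : ℝ, 0 < ε → ε ≤ 1 / 2 → ∀ (G : ℕ → ℝ) (d : ℝ), Expanding G d → ∀ κ : ℝ, 0 ≤ κ → d * (1 - 2 * ε) + κ < 1 →
        (∀ f : ℕ → ℕ, LM f → ∀ U : ℕ, ∃ X₀ : ℕ, ∀ X : ℕ, X₀ ≤ X →
          ({m : ℕ | 1 ≤ m ∧ m ≤ X ∧ ¬ ∀ n : ℕ, 1 ≤ n → |(n : ℝ) - G (f m)| ≤ (f m : ℝ) ^ κ →
            ‖A n‖ ≤ (n : ℝ) ^ (1 / 4 + ε)}.ncard : ℝ) ≤ X / Real.log X ^ U) ∧
        (∀ f : ℕ → ℕ, LM f → ∃ K : ℕ → ℕ, Tendsto K atTop atTop ∧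
          AlmostAll (fun m => ∀ k ≤ K m, ∀ n : ℕ, 1 ≤ n → |(n : ℝ) - G (orb f k m)| ≤ (orb f k m : ℝ) ^ κ →
            ‖A n‖ ≤ (n : ℝ) ^ (1 / 4 + ε))) ∧
        (∀ fs : List (ℕ → ℕ), (∀ f ∈ fs, PD f) → ∃ b K : ℝ, 0 < b ∧ ∀ X : ℕ, 1 ≤ X →
          ({m : ℕ | 1 ≤ m ∧ m ≤ X ∧ ¬ ∀ n : ℕ, 1 ≤ n → |(n : ℝ) - G (comp fs m)| ≤ (comp fs m : ℝ) ^ κ →
            ‖A n‖ ≤ (n : ℝ) ^ (1 / 4 + ε)}.ncard : ℝ) ≤
          K * X * Real.exp (-(b * Real.log X ^ ((1 : ℝ) / (fs.length + 1)))))) ∧
    (LM (fun m => m) ∧ LM Nat.totient ∧ LM (fun m => ∑ d ∈ m.divisors, d)) ∧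
    (∀ f : ℕ → ℕ, (∀ a b : ℕ, Nat.Coprime a b → f (a * b) = f a + f b) →
      (∃ C : ℕ, ∀ q j : ℕ, q.Prime → 1 ≤ j → f (q ^ j) ≤ C * q ^ j) →
      (∃ P : ℕ, ∀ p q : ℕ, p.Prime → q.Prime → P ≤ p → P ≤ q → f p = f q → p = q) → PD f) ∧
    (PD (fun n => n.primeFactors.sup id) ∧ PD (fun n => sInf {k : ℕ | n ∣ k.factorial})) ∧
    ∀ a d : ℝ, 0 < a → 1 ≤ d → Expanding (fun v => a * (v : ℝ) ^ d) d := by
  refine ⟨fun N χ F A hN hF ε hε hε1 G d hG κ hκ h1 => ?_, ⟨lm_id, lm_totient, lm_sigma⟩,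
    fun f a1 a2 a3 => pd_additive a1 a2 a3, ⟨pd_largest, pd_kempner⟩, fun a d ha hd => expanding_pow ha hd⟩
  have : NeZero N := ⟨by omega⟩
  have hc := count hF hε hε1
  have hs : 0 ≤ 1 - 2 * ε := by linarith
  refine ⟨fun f hf U => ?_, fun f hf => ?_, fun fs hfs => ?_⟩
  · exact keep_good (fun n : ℕ => 1 ≤ n) (fun n => ‖A n‖ ≤ (n : ℝ) ^ (1 / 4 + ε)) (fun n : ℕ => (n : ℝ)) hf hG
      (s := 1 - 2 * ε) (κ := κ) hs hκ h1 hc U
  · exact orbit_good (fun n : ℕ => 1 ≤ n) (fun n => ‖A n‖ ≤ (n : ℝ) ^ (1 / 4 + ε)) (fun n : ℕ => (n : ℝ)) hf hG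
      (s := 1 - 2 * ε) (κ := κ) hs hκ h1 hc
  · exact good (fun n : ℕ => 1 ≤ n) (fun n => ‖A n‖ ≤ (n : ℝ) ^ (1 / 4 + ε)) (fun n : ℕ => (n : ℝ)) fs hfs hG
      (s := 1 - 2 * ε) (κ := κ) hs hκ h1 hc

end Pool.Agent.Results.MP_af11aa_nt.ArithmeticValuesH35
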