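import Pool.Agent.V7H35.W32C
import Pool.Agent.N671.DA.Win

/-!
# The Ramanujan bound in weight `3/2` near functions of the denominators of good approximations

Let `F` be a cusp form of weight `3/2` on `Γ_0(N)` with any character, with the Fourier coefficients `A(n)`. Q1 asks for the
bound `A(n) ≪ n^{1/4 + ε}` at the squarefree `n`.

Let `α_1, …, α_m` be real numbers. We consider the natural numbers `q` with `‖q α_j - β_j‖ ≤ b q^(-τ)` for all `j`, `‖x‖` the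
distance to the nearest integer; for `β = 0`, `b = 1`, `τ = 1 / m` these include the denominators of all best simultaneous
approximations (the denominators of the convergents for `m = 1`). Let `G` have steps bounded below by a positive constant and
growth at most `v^d`, for example `G(q) = q` or `G(q) = a q^d`.

* Let `0 < ε ≤ 1/2`, `0 ≤ κ ≤ 1`. For all `α` in `ℝ^m` outside a set of Hausdorff dimension at most
  `(m + d (1 - 2 ε) + κ) / (1 + τ)`, for all but finitely many such `q`, the bound `|A(n)| ≤ n^{1/4 + ε}` is true for EVERY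
  integer `n ≥ 1` with `|n - G q| ≤ q^κ`.
* Let `F_1, F_2, …` be countably many cusp forms of weight `3/2`, for example the members of bases of the spaces
  `S_{3/2}(24 p, χ)` for ALL primes `p` and characters `χ`, and `τ = 1 / m`. For almost every `α` in `ℝ^m`: for ALL finite linear
  combinations `F` of the `F_i`, all `ε > 0`, `0 ≤ κ < 1` with `d (1 - 2 ε) + κ < 1` and all `b`, for all but finitely many such
  `q`, the bound `|A(n)| ≤ n^{1/4 + ε}` is true for EVERY integer `n ≥ 1` with `|n - G q| ≤ q^κ`.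

So for almost every real number `α` the coefficients at the denominators `q` of the convergents of `α`, and at all integers `n`
with `|n - q| ≤ q^κ`, `κ < 2 ε`, satisfy the bound of Q1, simultaneously for all primes `p`, all characters and all cusp forms.

Proof. `y^{3/4} |F|` is bounded on the upper half-plane, so the mean square of the coefficients up to `X` is at most
`C X^{3/2}` (Hecke, Rankin), and at most `X^{1 - 2 ε + o(1)}` of the `n ≤ X` are exceptions to `|A(n)| ≤ n^{1/4 + ε}`. The metric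
theorem on simultaneous approximations of the start library (`N671.DA`) does the rest. Everything is proved from the
definition of cusp forms.
-/

set_option autoImplicit false

namespace Pool.Agent.Results.MP_af11aa_nt.GoodApproximationsH35

open MeasureTheory Filter Topology UpperHalfPlane
open Pool.Agent.V7H35.W32 (IsCuspForm count)
open Pool.Agent.N671.DA (Solves Expanding expanding_pow approx_good)

lemma part1 {N : ℕ} {χ : DirichletCharacter ℂ N} {F : ℍ → ℂ} {A : ℕ → ℂ} (hN : 1 ≤ N) (hF : IsCuspForm N χ F A)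
    {G : ℕ → ℝ} {d : ℝ} (hG : Expanding G d) {κ : ℝ} (hκ : 0 ≤ κ) (hκ1 : κ ≤ 1) {m : ℕ} (β : Fin m → ℝ) {τ : ℝ}
    (hτ : 0 < τ) {ε : ℝ} (hε : 0 < ε) (hε1 : ε ≤ 1 / 2) :
    ∃ E : Set (Fin m → ℝ), dimH E ≤ ENNReal.ofReal ((m + (d * (1 - 2 * ε) + κ)) / (1 + τ)) ∧
      ∀ α, α ∉ E → ∀ b : ℝ, ∃ Q : ℕ, ∀ q : ℕ, Q ≤ q → Solves α β q (b * (q : ℝ) ^ (-τ)) →
        ∀ n : ℕ, 1 ≤ n → |(n : ℝ) - G q| ≤ (q : ℝ) ^ κ → ‖A n‖ ≤ (n : ℝ) ^ (1 / 4 + ε) := by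
  have : NeZero N := ⟨by omega⟩
  exact approx_good (fun n : ℕ => 1 ≤ n) (fun n => ‖A n‖ ≤ (n : ℝ) ^ (1 / 4 + ε)) (fun n : ℕ => (n : ℝ)) hG
    (s := 1 - 2 * ε) (κ := κ) (by linarith) hκ hκ1 (count hF hε hε1) β hτ

lemma null_of_dimH {m : ℕ} (hm : 1 ≤ m) {E : Set (Fin m → ℝ)} {r : ℝ} (h : dimH E ≤ ENNReal.ofReal r)
    (hr : r < m) : volume E = 0 := by
  have hm0 : (0 : ℝ) < m := by exact_mod_cast hm
  have h1 : dimH E < ((m : NNReal) : ENNReal) := by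
    refine lt_of_le_of_lt h ?_
    rw [ENNReal.coe_natCast, ← ENNReal.ofReal_natCast, ENNReal.ofReal_lt_ofReal_iff hm0]
    exact hr
  refine measure_zero_of_dimH_lt (μ := volume) (d := (m : NNReal)) ?_ h1
  have h2 : (μH[((m : NNReal) : ℝ)] : Measure (Fin m → ℝ)) = volume := by
    have h3 := hausdorffMeasure_pi_real (ι := Fin m)
    rw [Fintype.card_fin] at h3
    rw [NNReal.coe_natCast]
    exact h3
  rw [h2]

lemma part2 (N : ℕ → ℕ) (χ : ∀ i, DirichletCharacter ℂ (N i)) (F : ℕ → ℍ → ℂ) (A : ℕ → ℕ → ℂ) (hN : ∀ i, 1 ≤ N i)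
    (hF : ∀ i, IsCuspForm (N i) (χ i) (F i) (A i)) (G : ℕ → ℝ) (d : ℝ) (hG : Expanding G d) (m : ℕ) (hm : 1 ≤ m)
    (β : Fin m → ℝ) :
    ∀ᵐ α : Fin m → ℝ, ∀ (s : Finset ℕ) (c : ℕ → ℂ) (ε κ b : ℝ), 0 < ε → 0 ≤ κ → κ < 1 → d * (1 - 2 * ε) + κ < 1 →
      ∃ Q : ℕ, ∀ q : ℕ, Q ≤ q → Solves α β q (b * (q : ℝ) ^ (-(1 / m : ℝ))) →
        ∀ n : ℕ, 1 ≤ n → |(n : ℝ) - G q| ≤ (q : ℝ) ^ κ → ‖∑ i ∈ s, c i * A i n‖ ≤ (n : ℝ) ^ (1 / 4 + ε) := by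
  classical
  have hm0 : (0 : ℝ) < m := by exact_mod_cast hm
  have hd1 : 1 ≤ d := hG.one_le
  have hex : ∀ p : ℕ × ℚ × ℚ, ∃ E : Set (Fin m → ℝ), volume E = 0 ∧
      (0 < (p.2.1 : ℝ) → (p.2.1 : ℝ) ≤ 1 / 2 → 0 ≤ (p.2.2 : ℝ) → (p.2.2 : ℝ) ≤ 1 →
        d * (1 - 2 * (p.2.1 : ℝ)) + p.2.2 < 1 → ∀ α, α ∉ E → ∀ b : ℝ,
        ∃ Q : ℕ, ∀ q : ℕ, Q ≤ q → Solves α β q (b * (q : ℝ) ^ (-(1 / m : ℝ))) →
          ∀ n : ℕ, 1 ≤ n → |(n : ℝ) - G q| ≤ (q : ℝ) ^ (p.2.2 : ℝ) → ‖A p.1 n‖ ≤ (n : ℝ) ^ (1 / 4 + (p.2.1 : ℝ))) := by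
    rintro ⟨i, e, t⟩
    by_cases hc : 0 < (e : ℝ) ∧ (e : ℝ) ≤ 1 / 2 ∧ 0 ≤ (t : ℝ) ∧ (t : ℝ) ≤ 1 ∧ d * (1 - 2 * (e : ℝ)) + t < 1
    · obtain ⟨h1, h2, h3, h4, h5⟩ := hc
      obtain ⟨E, hE1, hE2⟩ := part1 (hN i) (hF i) hG h3 h4 β (τ := 1 / m) (by positivity) h1 h2
      refine ⟨E, null_of_dimH hm hE1 ?_, fun _ _ _ _ _ => hE2⟩
      rw [div_lt_iff₀ (by positivity)]
      have h6 : (m : ℝ) * (1 + 1 / m) = m + 1 := by
        field_simp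
      rw [h6]
      linarith
    · refine ⟨∅, measure_empty, fun h1 h2 h3 h4 h5 => absurd ⟨h1, h2, h3, h4, h5⟩ hc⟩
  choose E hE0 hE1 using hex
  have hnull : volume (⋃ p, E p) = 0 := measure_iUnion_null hE0
  filter_upwards [measure_eq_zero_iff_ae_notMem.1 hnull] with α hα s c ε κ b hε hκ hκ1 h1
  have hα' : ∀ p, α ∉ E p := fun p hp => hα (Set.mem_iUnion.2 ⟨p, hp⟩)
  -- the exponents
  obtain ⟨e₀, he₀⟩ : ∃ e₀ : ℝ, e₀ = min ε (1 / 2) := ⟨_, rfl⟩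
  have he₀ε : e₀ ≤ ε := he₀ ▸ min_le_left _ _
  have he₀2 : e₀ ≤ 1 / 2 := he₀ ▸ min_le_right _ _
  have he₀0 : 0 < e₀ := by
    rw [he₀]
    exact lt_min hε (by norm_num)
  have h2 : d * (1 - 2 * e₀) + κ < 1 := by
    rcases le_total ε (1 / 2) with h | h
    · rw [he₀, min_eq_left h]
      exact h1
    · rw [he₀, min_eq_right h]
      linarith
  have hlt : e₀ - (1 - κ - d * (1 - 2 * e₀)) / (2 * d) < e₀ := by
    have : 0 < (1 - κ - d * (1 - 2 * e₀)) / (2 * d) := div_pos (by linarith) (by linarith)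
    linarith
  obtain ⟨e, he1, he2⟩ := exists_rat_btwn (show max (e₀ - (1 - κ - d * (1 - 2 * e₀)) / (2 * d)) 0 < e₀ from
    max_lt hlt he₀0)
  rw [max_lt_iff] at he1
  have h3 : d * (1 - 2 * (e : ℝ)) + κ < 1 := by
    have h4 : (e₀ - e) * (2 * d) < 1 - κ - d * (1 - 2 * e₀) := by
      rw [← lt_div_iff₀ (by linarith)]
      linarith [he1.1]
    nlinarith [h4]
  obtain ⟨t, ht1, ht2⟩ := exists_rat_btwn (show κ < min 1 (1 - d * (1 - 2 * (e : ℝ))) from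
    lt_min hκ1 (by linarith))
  rw [lt_min_iff] at ht2
  have hk : ∀ i : ℕ, ∃ Q : ℕ, ∀ q : ℕ, Q ≤ q → Solves α β q (b * (q : ℝ) ^ (-(1 / m : ℝ))) →
      ∀ n : ℕ, 1 ≤ n → |(n : ℝ) - G q| ≤ (q : ℝ) ^ (t : ℝ) → ‖A i n‖ ≤ (n : ℝ) ^ (1 / 4 + (e : ℝ)) := fun i =>
    hE1 (i, e, t) he1.2 (by linarith) (by linarith) ht2.1.le (by linarith [ht2.2]) α (hα' _) b
  choose Q₀ hQ₀ using hk
  obtain ⟨a, ha, hstep⟩ := hG.step
  have ht1' : 0 < 1 - (t : ℝ) := by linarith [ht2.1]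
  have hee : 0 < ε - e := by linarith
  have c1 : ∀ᶠ x : ℝ in atTop, 1 ≤ x := eventually_ge_atTop 1
  have c2 : ∀ᶠ x : ℝ in atTop, 4 / a ≤ x ^ (1 - (t : ℝ)) := (tendsto_rpow_atTop ht1').eventually_ge_atTop _
  have c3 : ∀ᶠ x : ℝ in atTop, ∑ i ∈ s, ‖c i‖ ≤ (x * (a / 2)) ^ (ε - e) :=
    ((tendsto_rpow_atTop hee).comp (tendsto_id.atTop_mul_const (by positivity))).eventually_ge_atTop _
  have c5 : ∀ᶠ x : ℝ in atTop, 4 * (a - G 1) / a ≤ x := eventually_ge_atTop _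
  have c4 := (tendsto_natCast_atTop_atTop (R := ℝ)).eventually (((c1.and c2).and c3).and c5)
  obtain ⟨K, hK⟩ := eventually_atTop.1 c4
  refine ⟨max K (s.sup Q₀), fun q hq hsol n hn hnq => ?_⟩
  obtain ⟨⟨⟨d1, d2⟩, d3⟩, d4⟩ := hK q ((le_max_left _ _).trans hq)
  have hq0 : (0 : ℝ) < q := by linarith
  have hq1 : 1 ≤ q := by exact_mod_cast d1
  have g2 : |(n : ℝ) - G q| ≤ (q : ℝ) ^ (t : ℝ) :=
    hnq.trans (Real.rpow_le_rpow_of_exponent_le d1 ht1.le)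
  have g3 : (q : ℝ) ^ (t : ℝ) ≤ q * (a / 4) := by
    have h5 : (q : ℝ) = (q : ℝ) ^ (1 - (t : ℝ)) * (q : ℝ) ^ (t : ℝ) := by
      rw [← Real.rpow_add hq0, sub_add_cancel, Real.rpow_one]
    have h6 : 4 / a * (q : ℝ) ^ (t : ℝ) ≤ (q : ℝ) ^ (1 - (t : ℝ)) * (q : ℝ) ^ (t : ℝ) :=
      mul_le_mul_of_nonneg_right d2 (Real.rpow_nonneg hq0.le _)
    rw [← h5] at h6
    have h7 : (q : ℝ) ^ (t : ℝ) = 4 / a * (q : ℝ) ^ (t : ℝ) * (a / 4) := by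
      field_simp
    rw [h7]
    exact mul_le_mul_of_nonneg_right h6 (by positivity)
  have g4 : (q : ℝ) * (a / 2) ≤ n := by
    have h7 := (abs_le.1 g2).1
    have h8 := Pool.Agent.N671.DA.step_sum hstep (le_refl 1) hq1
    rw [Nat.cast_sub hq1, Nat.cast_one] at h8
    have h9 : a - G 1 ≤ q * (a / 4) := by
      rw [div_le_iff₀ ha] at d4
      linarith
    linarith
  have hn0 : (0 : ℝ) < n := lt_of_lt_of_le (by positivity) g4
  have g5 : ∀ i ∈ s, ‖A i n‖ ≤ (n : ℝ) ^ (1 / 4 + (e : ℝ)) := fun i hi =>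
    hQ₀ i q ((Finset.le_sup hi).trans ((le_max_right _ _).trans hq)) hsol n hn g2
  have g6 : ∑ i ∈ s, ‖c i‖ ≤ (n : ℝ) ^ (ε - e) :=
    d3.trans (Real.rpow_le_rpow (by positivity) g4 hee.le)
  calc ‖∑ i ∈ s, c i * A i n‖ ≤ ∑ i ∈ s, ‖c i‖ * ‖A i n‖ := by
        refine (norm_sum_le _ _).trans (le_of_eq ?_)
        exact Finset.sum_congr rfl fun i _ => norm_mul _ _
    _ ≤ ∑ i ∈ s, ‖c i‖ * (n : ℝ) ^ (1 / 4 + (e : ℝ)) :=
        Finset.sum_le_sum fun i hi => mul_le_mul_of_nonneg_left (g5 i hi) (norm_nonneg _)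
    _ = (∑ i ∈ s, ‖c i‖) * (n : ℝ) ^ (1 / 4 + (e : ℝ)) := by rw [Finset.sum_mul]
    _ ≤ (n : ℝ) ^ (ε - e) * (n : ℝ) ^ (1 / 4 + (e : ℝ)) :=
        mul_le_mul_of_nonneg_right g6 (Real.rpow_nonneg hn0.le _)
    _ = (n : ℝ) ^ (1 / 4 + ε) := by
        rw [← Real.rpow_add hn0]
        congr 1
        ring

/-- **The Ramanujan bound in weight `3/2` near the denominators of good approximations.** Let `G` have steps `≥ const > 0` and
growth at most `v^d`, `β` in `ℝ^m`. (1) Let `F` be a cusp form of weight `3/2` on `Γ_0(N)` with the character `χ` and the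
coefficients `A(n)`, `0 < ε ≤ 1/2`, `0 ≤ κ ≤ 1` and `τ > 0`. For all `α` in `ℝ^m` outside a set of Hausdorff dimension at most
`(m + d (1 - 2 ε) + κ) / (1 + τ)` and all `b`, for all large `q` with `‖q α_j - β_j‖ ≤ b q^(-τ)` for all `j`, EVERY integer
`n ≥ 1` with `|n - G q| ≤ q^κ` satisfies `|A(n)| ≤ n^{1/4 + ε}`. (2) Let `F_i` be countably many such cusp forms (of any levels
and characters) with the coefficients `A_i(n)`, and `m ≥ 1`. For almost every `α` in `ℝ^m`: for all finite linear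
combinations `∑ c_i A_i(n)`, all `ε > 0`, `0 ≤ κ < 1` with `d (1 - 2 ε) + κ < 1` and all `b`, for all large `q` with
`‖q α_j - β_j‖ ≤ b q^(-1/m)` for all `j`, EVERY integer `n ≥ 1` with `|n - G q| ≤ q^κ` satisfies
`|∑ c_i A_i(n)| ≤ n^{1/4 + ε}`. (3) The functions `a v^d` with `a > 0`, `d ≥ 1` are examples of `G`. -/
theorem result :
    (∀ (N : ℕ) (χ : DirichletCharacter ℂ N) (F : ℍ → ℂ) (A : ℕ → ℂ), 1 ≤ N → IsCuspForm N χ F A →
      ∀ (G : ℕ → ℝ) (d : ℝ), Expanding G d → ∀ κ : ℝ, 0 ≤ κ → κ ≤ 1 →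
      ∀ (m : ℕ) (β : Fin m → ℝ) (τ : ℝ), 0 < τ → ∀ ε : ℝ, 0 < ε → ε ≤ 1 / 2 →
      ∃ E : Set (Fin m → ℝ), dimH E ≤ ENNReal.ofReal ((m + (d * (1 - 2 * ε) + κ)) / (1 + τ)) ∧
        ∀ α, α ∉ E → ∀ b : ℝ, ∃ Q : ℕ, ∀ q : ℕ, Q ≤ q → Solves α β q (b * (q : ℝ) ^ (-τ)) →
          ∀ n : ℕ, 1 ≤ n → |(n : ℝ) - G q| ≤ (q : ℝ) ^ κ → ‖A n‖ ≤ (n : ℝ) ^ (1 / 4 + ε)) ∧
    (∀ (N : ℕ → ℕ) (χ : ∀ i, DirichletCharacter ℂ (N i)) (F : ℕ → ℍ → ℂ) (A : ℕ → ℕ → ℂ), (∀ i, 1 ≤ N i) →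
      (∀ i, IsCuspForm (N i) (χ i) (F i) (A i)) → ∀ (G : ℕ → ℝ) (d : ℝ), Expanding G d →
      ∀ m : ℕ, 1 ≤ m → ∀ β : Fin m → ℝ, ∀ᵐ α : Fin m → ℝ,
        ∀ (s : Finset ℕ) (c : ℕ → ℂ) (ε κ b : ℝ), 0 < ε → 0 ≤ κ → κ < 1 → d * (1 - 2 * ε) + κ < 1 →
          ∃ Q : ℕ, ∀ q : ℕ, Q ≤ q → Solves α β q (b * (q : ℝ) ^ (-(1 / m : ℝ))) →
            ∀ n : ℕ, 1 ≤ n → |(n : ℝ) - G q| ≤ (q : ℝ) ^ κ →
              ‖∑ i ∈ s, c i * A i n‖ ≤ (n : ℝ) ^ (1 / 4 + ε)) ∧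
    ∀ a d : ℝ, 0 < a → 1 ≤ d → Expanding (fun v => a * (v : ℝ) ^ d) d :=
  ⟨fun _ _ _ _ hN hF _ _ hG _ hκ hκ1 _ β _ hτ _ hε hε1 => part1 hN hF hG hκ hκ1 β hτ hε hε1, part2,
    fun _ _ ha hd => expanding_pow ha hd⟩

end Pool.Agent.Results.MP_af11aa_nt.GoodApproximationsH35
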