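import Mathlib
import Pool.Agent.V7H89.CH.Loc
import Pool.Agent.V7H83.CZ.J

/-!
# Large coefficients in weight 3/2 and the zeros of the twisted L-functions near the centre

Let `f` be in `S^(1)_{3/2}(24p, χ)`, `f = ∑ c_j f_j` with Hecke eigenforms `f_j` whose Shimura lifts `F_j` are cusp
forms of weight two, and let `L_{j,t}(s) = L(F_j ⊗ χ_t, s)`, normalised with the centre `1/2`, `t` square-free.  The
theorem of Waldspurger gives `|a_f(t)|² ≤ K t^{1/2} ∑_j |L_{j,t}(1/2)|`, and the analytic conductors `Q_{j,t}` of these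
L-functions lie between `t / C` and `C t²`.  `Weight32` collects these facts, with the analytic properties of the
L-functions (`IsStandard`), for any sequence `a(t)` and any finite number of families; everything below is unconditional for
such data, and so for the coefficients `a_f(t)`.

* (A) (large coefficients) Let `β, h > 0` and `0 < x < 4β`.  There are `c, R > 0` such that for all large square-free `t` with
  `|a(t)| ≥ t^{1/4 + β}` there is ONE `j` such that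
  - `L_{j,t}` has at least `c log t` zeros with `Re s ≥ 1/2 + c` and `|Im s| ≤ h` (`h` may be as small as we wish);
  - `|L_{j,t}(1/2 + iu)| ≥ t^c` on a set of measure at least `c` of `|u| ≤ h`;
  - at the time `x / log Q_{j,t}` the heat flow (the flow of de Bruijn and Newman) of the completed L-function
    `Λ(F_j ⊗ χ_t, s)` still has at least `c log t` zeros with `Re s ≥ 1/2 + c`, `|Im s| ≤ R`.
  So a coefficient of size `t^{1/4 + β}` is never an accident of the central point: it forces a positive proportion of the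
  zeros near the centre off the critical line, and these zeros survive in the heat flow up to the time `4 β / log Q`.
* (B) (intermediate exponents) If for one `x > 0`, all `η, R > 0` and all large square-free `t` the heat flows at the time
  `x / log Q_{j,t}` have at most `η log t` zeros with `Re s ≥ 1/2 + η`, `|Im s| ≤ R`, then `a(t) ≪ t^{1/4 + x/4 + ε}` for all
  `ε > 0`.  For `x > 1` ALL zeros of the flow with `|Im s| ≤ R` are on the critical line for large `t`.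
* (C) (criteria) The bound of Q1, `a(t) ≪ t^{1/4 + ε}`, follows from each of: for ONE `h > 0` and all `η > 0` the `L_{j,t}` have
  at most `η log t` zeros with `Re s ≥ 1/2 + η`, `|Im s| ≤ h`, for large `t`; for ONE `h > 0` and all `η > 0`,
  `|L_{j,t}(1/2 + iu)| ≤ t^η` for `|u| ≤ h` off a set of measure `η`; the condition of (B) for all `x > 0`.

The theorem on zeros in thin boxes and large values in measure is used from the file of helper83
(`Pool.Agent.V7H83.CZ`, MP_21d687_nt).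
-/

set_option autoImplicit false

open MeasureTheory

namespace Pool.Agent.Results.MP_af11aa_nt.LargeCoefficientsH89

/-- The data of an L-function of degree `n` over the rationals: the arithmetic conductor `q`, the
archimedean parameters `μ j` (the gamma factor is `∏ j, Γ_ℝ(s + μ j)`), the Satake parameters `α p j` at the
primes `p` (some of them zero at ramified primes), the root number `w` and the completed L-function `Λ`. -/
structure StdL (n : ℕ) where
  /-- the arithmetic conductor -/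
  q : ℕ
  /-- the archimedean parameters -/
  μ : Fin n → ℂ
  /-- the Satake parameters -/
  α : ℕ → Fin n → ℂ
  /-- the root number -/
  w : ℂ
  /-- the completed L-function -/
  Λ : ℂ → ℂ

/-- The L-function `L(s) = Λ(s) q^{-s/2} ∏ j, Γ_ℝ(s + μ j)⁻¹`. -/
noncomputable def StdL.L {n : ℕ} (D : StdL n) (s : ℂ) : ℂ :=
  D.Λ s * ((D.q : ℂ) ^ (s / 2) * ∏ j, Complex.Gammaℝ (s + D.μ j))⁻¹

/-- The analytic conductor `Q(1/2 + it) = q ∏ j, (1 + |1/2 + it + μ j|)`. -/
noncomputable def StdL.Q {n : ℕ} (D : StdL n) (t : ℝ) : ℝ :=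
  D.q * ∏ j, (1 + ‖1 / 2 + (t : ℂ) * Complex.I + D.μ j‖)

/-- The analytic properties of the L-functions. -/
structure StdL.IsStandard {n : ℕ} (D : StdL n) (θ : ℝ) : Prop where
  /-- the conductor is positive -/
  q_pos : 0 < D.q
  /-- the root number has absolute value one -/
  w_norm : ‖D.w‖ = 1
  /-- the bound for the Satake parameters -/
  satake : ∀ p : ℕ, p.Prime → ∀ j, ‖D.α p j‖ ≤ (p : ℝ) ^ θ
  /-- the bound for the archimedean parameters -/
  arch : ∀ j, -θ ≤ (D.μ j).re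
  /-- the completed L-function is entire -/
  entire : Differentiable ℂ D.Λ
  /-- it is of finite order in vertical strips -/
  order : ∀ a b : ℝ, ∃ M : ℝ, ∀ s : ℂ, a ≤ s.re → s.re ≤ b → ‖D.Λ s‖ ≤ Real.exp (M * (1 + |s.im|))
  /-- the Euler product in the half plane `Re s > 1` -/
  euler : ∀ s : ℂ, 1 < s.re →
    HasProd (fun p : Nat.Primes => ∏ j, (1 - D.α p j * ((p : ℕ) : ℂ) ^ (-s))⁻¹) (D.L s)
  /-- there are no zeros in this half plane -/
  ne_zero : ∀ s : ℂ, 1 < s.re → D.Λ s ≠ 0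
  /-- the functional equation -/
  functional : ∀ s : ℂ, D.Λ s = D.w * (starRingEnd ℂ) (D.Λ (1 - (starRingEnd ℂ) s))

/-- The numbers `a t` and the L-functions `D j t`, `t` square-free (in Q1: the coefficients of `f`, and the L-functions of
the twists by `χ_t` of the Shimura lifts of the eigenforms occurring in `f`). -/
structure Weight32 {J : ℕ} (θ C K : ℝ) (D : Fin J → ℕ → StdL 2) (a : ℕ → ℂ) : Prop where
  /-- the analytic properties -/
  standard : ∀ (j : Fin J) (t : ℕ), Squarefree t → (D j t).IsStandard θ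
  /-- the conductor is not small -/
  lower : ∀ (j : Fin J) (t : ℕ), Squarefree t → (t : ℝ) ≤ C * (D j t).Q 0
  /-- the conductor is not large -/
  upper : ∀ (j : Fin J) (t : ℕ), Squarefree t → (D j t).Q 0 ≤ C * (t : ℝ) ^ 2
  /-- the upper bound in the formula of Waldspurger -/
  waldspurger : ∀ t : ℕ, Squarefree t → ‖a t‖ ^ 2 ≤ K * Real.sqrt t * ∑ j, ‖(D j t).L (1 / 2)‖

/-- The heat flow `e^{t D²} F` at the time `t ≥ 0`: the average of `F(s + 2 √t v)` with the weight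
`π^{-1/2} e^{-v²}`. -/
noncomputable def heat (t : ℝ) (F : ℂ → ℂ) (s : ℂ) : ℂ :=
  ((1 / Real.sqrt Real.pi : ℝ) : ℂ) *
    ∫ v : ℝ, ((Real.exp (-v ^ 2) : ℝ) : ℂ) * F (s + ((2 * Real.sqrt t * v : ℝ) : ℂ))

/-- The heat flow of the completed L-function at the time `x / log Q`, `Q` the analytic conductor at the centre. -/
noncomputable def StdL.flow {n : ℕ} (D : StdL n) (x : ℝ) : ℂ → ℂ := heat (x / Real.log (D.Q 0)) D.Λ

/-- `F` has at most `c` zeros with `Re s ≥ 1/2 + η`, `|Im s| ≤ R`, counted with multiplicity. -/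
def AtMost (F : ℂ → ℂ) (η R c : ℝ) : Prop :=
  ∀ S : Finset ℂ, (∀ z ∈ S, F z = 0 ∧ 1 / 2 + η ≤ z.re ∧ |z.im| ≤ R) →
    ∑ z ∈ S, (analyticOrderNatAt F z : ℝ) ≤ c

/-- `F` has at least `c` zeros with `Re s ≥ 1/2 + η`, `|Im s| ≤ R`, counted with multiplicity. -/
def AtLeast (F : ℂ → ℂ) (η R c : ℝ) : Prop :=
  ∃ S : Finset ℂ, (∀ z ∈ S, F z = 0 ∧ 1 / 2 + η ≤ z.re ∧ |z.im| ≤ R) ∧
    c ≤ ∑ z ∈ S, (analyticOrderNatAt F z : ℝ)

/-- `a(t) ≪ t^{e + ε}` for all `ε > 0` and all square-free `t`. -/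
def Bound (a : ℕ → ℂ) (e : ℝ) : Prop := ∀ ε : ℝ, 0 < ε → ∃ B : ℝ, ∀ t : ℕ, Squarefree t →
  ‖a t‖ ≤ B * (t : ℝ) ^ (e + ε)

/-- `P t j` holds for all large square-free `t` and all `j`. -/
def ForLarge {J : ℕ} (P : ℕ → Fin J → Prop) : Prop := ∃ X : ℝ, ∀ t : ℕ, Squarefree t → X ≤ t → ∀ j, P t j

/-- At the time `x / log Q` the flows have `o(log t)` zeros off the critical line near the centre. -/
def FewOff {J : ℕ} (D : Fin J → ℕ → StdL 2) (x : ℝ) : Prop := ∀ η R : ℝ, 0 < η → 0 < R →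
  ForLarge fun t j => AtMost ((D j t).flow x) η R (η * Real.log t)

open Pool.Agent.V7H83.CZ Pool.Agent.V7H89.GL Pool.Agent.V7H89.CH Pool.Agent.W169.HF H353.E H353.F

section

variable {n : ℕ}

/-- the data in the form of the library -/
lemma dat_of (D : StdL n) {θ : ℝ} (hθ0 : 0 ≤ θ) (hθ : θ < 1 / 2) (H : D.IsStandard θ) :
    Dat θ (D.q : ℝ) (fun j => -D.μ j) (fun j p => D.α p j) D.w
      (fun s => D.Λ s * ((D.q : ℂ) ^ (s / 2))⁻¹) := by
  have hq : (1 : ℝ) ≤ D.q := by exact_mod_cast H.q_pos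
  have hq0 : (D.q : ℂ) ≠ 0 := by
    have := H.q_pos
    exact_mod_cast this.ne'
  have hpow : ∀ s : ℂ, (D.q : ℂ) ^ (s / 2) ≠ 0 := fun s => by
    rw [Ne, Complex.cpow_eq_zero_iff]
    exact fun h => hq0 h.1
  have hXX : ∀ s : ℂ, XX (D.q : ℝ) (fun s => D.Λ s * ((D.q : ℂ) ^ (s / 2))⁻¹) s = D.Λ s := fun s => by
    unfold XX
    rw [Complex.ofReal_natCast]
    field_simp [hpow s]
  refine ⟨⟨hq, fun j => ?_, fun j p hp => H.satake p hp j, H.w_norm, ?_, fun s hs => ?_, fun s => ?_,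
    fun a b => ?_⟩, fun j => ?_, fun s hs => ?_⟩
  · have := H.arch j
    simp only [Complex.neg_re]
    linarith
  · refine H.entire.mul ?_
    have e : (fun s : ℂ => ((D.q : ℂ) ^ (s / 2))⁻¹) = fun s => (D.q : ℂ) ^ (-(s / 2)) := by
      funext s
      rw [Complex.cpow_neg]
    rw [e]
    intro z
    exact ((((hasDerivAt_id z).div_const 2).neg).const_cpow (c := (D.q : ℂ)) (Or.inl hq0)).differentiableAt
  · have h1 := (H.euler s (by linarith)).tprod_eq
    rw [h1]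
    unfold StdL.L
    have hne : ∏ j, Complex.Gammaℝ (s + D.μ j) ≠ 0 := by
      refine Finset.prod_ne_zero_iff.2 fun j _ => Complex.Gammaℝ_ne_zero_of_re_pos ?_
      have := H.arch j
      rw [Complex.add_re]
      linarith
    simp only [sub_neg_eq_add]
    rw [mul_inv]
    field_simp [hpow s]
  · have h1 := H.functional s
    rw [h1, map_mul, map_inv₀]
    have h2 : (starRingEnd ℂ) ((D.q : ℂ) ^ ((1 - (starRingEnd ℂ) s) / 2)) = (D.q : ℂ) ^ ((1 - s) / 2) := by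
      have := conj_cpow_real (N := (D.q : ℝ)) (by linarith) ((1 - (starRingEnd ℂ) s) / 2)
      rw [Complex.ofReal_natCast] at this
      rw [this]
      congr 1
      rw [map_div₀, map_sub, Complex.conj_conj, map_one, map_ofNat]
    rw [h2, Complex.ofReal_natCast]
    have h3 : (D.q : ℂ) ^ (1 / 2 - s) * ((D.q : ℂ) ^ ((1 - s) / 2))⁻¹ = ((D.q : ℂ) ^ (s / 2))⁻¹ := by
      rw [← Complex.cpow_neg, ← Complex.cpow_neg, ← Complex.cpow_add _ _ hq0]
      congr 1
      ring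
    rw [← h3]
    ring
  · obtain ⟨M, hM⟩ := H.order a b
    refine ⟨M + (|a| + |b|) * Real.log D.q, fun s h1 h2 => ?_⟩
    rw [norm_mul, norm_inv, Complex.norm_natCast_cpow_of_pos H.q_pos]
    have h3 := hM s h1 h2
    have hlog := Real.log_nonneg hq
    have hre : (s / 2).re = s.re / 2 := by
      rw [show (2 : ℂ) = ((2 : ℝ) : ℂ) by norm_num, Complex.div_ofReal_re]
    rw [hre, ← Real.rpow_neg (by linarith), Real.rpow_def_of_pos (by linarith)]
    refine (mul_le_mul_of_nonneg_right h3 (Real.exp_pos _).le).trans ?_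
    rw [← Real.exp_add]
    apply Real.exp_le_exp.2
    have h4 : -(s.re / 2) ≤ |a| + |b| := by
      have := neg_abs_le a
      have := abs_nonneg b
      have := abs_nonneg a
      linarith
    have h5 : Real.log D.q * -(s.re / 2) ≤ Real.log D.q * (|a| + |b|) := mul_le_mul_of_nonneg_left h4 hlog
    have h6 : 0 ≤ (|a| + |b|) * Real.log D.q * |s.im| := by positivity
    nlinarith
  · have := H.arch j
    simp only [Complex.neg_re]
    linarith
  · rw [hXX]
    exact H.ne_zero s hs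

lemma XX_eq (D : StdL n) (hq : 0 < D.q) :
    XX (D.q : ℝ) (fun s => D.Λ s * ((D.q : ℂ) ^ (s / 2))⁻¹) = D.Λ := by
  have hq0 : (D.q : ℂ) ≠ 0 := by exact_mod_cast hq.ne'
  funext s
  unfold XX
  have hpow : (D.q : ℂ) ^ (s / 2) ≠ 0 := by
    rw [Ne, Complex.cpow_eq_zero_iff]
    exact fun h => hq0 h.1
  rw [Complex.ofReal_natCast]
  field_simp [hpow]

lemma LL_eq (D : StdL n) (hq : 0 < D.q) (s : ℂ) :
    LL (D.q : ℝ) (fun j => -D.μ j) (fun s => D.Λ s * ((D.q : ℂ) ^ (s / 2))⁻¹) s = D.L s := by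
  unfold LL StdL.L gaf
  rw [XX_eq D hq]
  simp only [sub_neg_eq_add, Complex.ofReal_natCast]

lemma cq_eq (D : StdL n) (t : ℝ) : cq (D.q : ℝ) (fun j => -D.μ j) t = D.Q t := by
  unfold cq StdL.Q
  simp only [sub_neg_eq_add]

end

lemma mem_of {n : ℕ} (D : StdL n) {θ : ℝ} (hθ0 : 0 ≤ θ) (hθ : θ < 1 / 2) (H : D.IsStandard θ) : Mem θ n D.L D.Q :=
  ⟨_, _, _, _, _, dat_of D hθ0 hθ H, funext fun s => (LL_eq D H.q_pos s).symm, funext fun t => (cq_eq D t).symm⟩

lemma Q_one_le {n : ℕ} (D : StdL n) (hq : 0 < D.q) (T : ℝ) : 1 ≤ D.Q T := by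
  have hq1 : (1 : ℝ) ≤ D.q := by exact_mod_cast hq
  rw [← cq_eq]
  exact hq1.trans (le_cq hq1 _ _)

lemma sq_one_le {t : ℕ} (h : Squarefree t) : (1 : ℝ) ≤ t := by
  have : t ≠ 0 := h.ne_zero
  exact_mod_cast Nat.one_le_iff_ne_zero.2 this

section main

variable {J : ℕ} {θ C K : ℝ} {D : Fin J → ℕ → StdL 2} {a : ℕ → ℂ}

/-- a large coefficient gives a large central value -/
lemma pick (hK : 0 ≤ K) (W : Weight32 θ C K D a) {β γ : ℝ} (h : γ < 2 * β) :
    ∃ X : ℝ, ∀ t : ℕ, Squarefree t → X ≤ t → (t : ℝ) ^ (1 / 4 + β) ≤ ‖a t‖ →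
      ∃ j, (t : ℝ) ^ γ ≤ ‖(D j t).L (1 / 2)‖ := by
  have hd : 0 < 2 * β - γ := by linarith
  obtain ⟨X, hX⟩ := ((tendsto_rpow_atTop hd).eventually_gt_atTop (K * J)).exists_forall_of_atTop
  refine ⟨X, fun t ht hXt hbig => ?_⟩
  by_contra hcon
  push Not at hcon
  have ht1 := sq_one_le ht
  have ht0 : (0 : ℝ) < t := by linarith
  have h1 := W.waldspurger t ht
  have h2 : ∑ j, ‖(D j t).L (1 / 2)‖ ≤ J * (t : ℝ) ^ γ := by
    calc ∑ j, ‖(D j t).L (1 / 2)‖ ≤ ∑ _j : Fin J, (t : ℝ) ^ γ := Finset.sum_le_sum fun j _ => (hcon j).le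
      _ = _ := by simp
  have h3 : ((t : ℝ) ^ (1 / 4 + β)) ^ 2 ≤ ‖a t‖ ^ 2 :=
    pow_le_pow_left₀ (Real.rpow_nonneg ht0.le _) hbig 2
  have h4 : ((t : ℝ) ^ (1 / 4 + β)) ^ 2 = Real.sqrt t * (t : ℝ) ^ (2 * β) := by
    rw [Real.sqrt_eq_rpow, ← Real.rpow_natCast, ← Real.rpow_mul ht0.le, ← Real.rpow_add ht0]
    congr 1
    push_cast
    ring
  have hs : 0 < Real.sqrt t := Real.sqrt_pos.2 ht0
  have h5 : Real.sqrt t * (t : ℝ) ^ (2 * β) ≤ Real.sqrt t * (K * (J * (t : ℝ) ^ γ)) := by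
    calc Real.sqrt t * (t : ℝ) ^ (2 * β) ≤ K * Real.sqrt t * ∑ j, ‖(D j t).L (1 / 2)‖ := by
          rw [← h4]
          exact h3.trans h1
      _ ≤ K * Real.sqrt t * (J * (t : ℝ) ^ γ) := mul_le_mul_of_nonneg_left h2 (by positivity)
      _ = _ := by ring
  have h6 := le_of_mul_le_mul_left h5 hs
  have h7 := hX t hXt
  have h8 : (t : ℝ) ^ (2 * β) = (t : ℝ) ^ (2 * β - γ) * (t : ℝ) ^ γ := by
    rw [← Real.rpow_add ht0]
    congr 1
    ring
  have h9 : 0 < (t : ℝ) ^ γ := Real.rpow_pos_of_pos ht0 _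
  rw [h8] at h6
  nlinarith

/-- zeros and values of the L-functions -/
lemma law1 (hθ0 : 0 ≤ θ) (hθ : θ < 1 / 2) (hC : 1 ≤ C) (W : Weight32 θ C K D a) {β h : ℝ}
    (hβ : 0 < β) (hh : 0 < h) : ∃ c X : ℝ, 0 < c ∧ ∀ (t : ℕ), Squarefree t → X ≤ t → ∀ j,
      (t : ℝ) ^ β ≤ ‖(D j t).L (1 / 2)‖ → AtLeast (D j t).L c h (c * Real.log t) ∧
        ENNReal.ofReal c ≤ volume {u : ℝ | |u| ≤ h ∧ (t : ℝ) ^ c ≤ ‖(D j t).L (1 / 2 + u * Complex.I)‖} := by
  have F : Fam θ 2 (fun i : Fin J × {t : ℕ // Squarefree t} => (D i.1 i.2).L)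
      (fun i => (D i.1 i.2).Q) (fun i => ((i.2 : ℕ) : ℝ)) C 2 :=
    ⟨fun i => mem_of (D i.1 i.2) hθ0 hθ (W.standard _ _ i.2.2), hC, by norm_num,
      fun i => W.lower _ _ i.2.2, fun i => by
        rw [Real.rpow_two]
        exact W.upper _ _ i.2.2, fun i => sq_one_le i.2.2⟩
  obtain ⟨c, X, hc, -, H1⟩ := F.local (by norm_num) hθ0 hθ hβ hh le_rfl
  refine ⟨c, X, hc, fun t ht hXt j hbig => ?_⟩
  have e : (1 / 2 + ((0 : ℝ) : ℂ) * Complex.I) = 1 / 2 := by push_cast; ring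
  obtain ⟨⟨S, hS, hSc⟩, h2⟩ := H1 (j, ⟨t, ht⟩) hXt 0 (by simp) (by rw [e]; exact hbig)
  simp only [sub_zero] at h2 hS
  exact ⟨⟨S, hS, hSc⟩, h2⟩

/-- zeros of the flow -/
lemma law2 (hθ0 : 0 ≤ θ) (hθ : θ < 1 / 2) (hC : 1 ≤ C) (W : Weight32 θ C K D a) {b x : ℝ}
    (hx : 0 < x) (hb : x < 4 * b) : ∃ c R X : ℝ, 0 < c ∧ 0 < R ∧ ∀ (t : ℕ), Squarefree t → X ≤ t → ∀ j,
      (D j t).Q 0 ^ b ≤ ‖(D j t).L (1 / 2)‖ → AtLeast ((D j t).flow x) c R (c * Real.log t) := by
  obtain ⟨κ, hκ⟩ : ∃ κ : ℝ, κ = (b - x / 4) / 2 := ⟨_, rfl⟩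
  have hκ0 : 0 < κ := by rw [hκ]; linarith
  obtain ⟨c, R, Q0, hc, hR, hQ0, HS⟩ := loc_size (m := 2) (by norm_num) hθ0 hθ hx hκ0
  refine ⟨c / 2, R, max (C * Q0) (C ^ 2), by positivity, hR, fun t ht hXt j hbig => ?_⟩
  have hS := W.standard j t ht
  have ht1 := sq_one_le ht
  have h1 : Q0 ≤ (D j t).Q 0 := by
    have := ((le_max_left _ _).trans hXt).trans (W.lower j t ht)
    exact le_of_mul_le_mul_left this (by linarith)
  have hQ1 : 1 < (D j t).Q 0 := by linarith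
  -- the logarithms
  have hlog : Real.log t ≤ 2 * Real.log ((D j t).Q 0) := by
    have h2 : (t : ℝ) ^ 2 ≤ t * ((D j t).Q 0) ^ 2 := by
      have h3 := W.lower j t ht
      have h4 := (le_max_right _ _).trans hXt
      have h5 : (t : ℝ) ^ 2 ≤ (C * (D j t).Q 0) ^ 2 := pow_le_pow_left₀ (by linarith) h3 2
      rw [mul_pow] at h5
      exact h5.trans (mul_le_mul_of_nonneg_right h4 (by positivity))
    have h3 : (t : ℝ) ≤ ((D j t).Q 0) ^ 2 := by
      rw [sq] at h2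
      exact le_of_mul_le_mul_left h2 (by linarith)
    have h4 := Real.log_le_log (by linarith) h3
    rwa [Real.log_pow, Nat.cast_ofNat] at h4
  by_contra hcon
  unfold AtLeast at hcon
  push Not at hcon
  have h2 := HS _ _ _ _ _ (dat_of (D j t) hθ0 hθ hS) 0 (by rw [cq_eq]; exact h1)
    (by
      rw [cq_eq, XX_eq (D j t) hS.q_pos]
      intro S hS'
      have h3 := hcon S (fun z hz => by
        obtain ⟨h4, h5, h6⟩ := hS' z hz
        exact ⟨h4, by linarith, by simpa using h6⟩)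
      refine h3.le.trans ?_
      nlinarith) 0 le_rfl (by norm_num)
  rw [LL_eq (D j t) hS.q_pos, cq_eq] at h2
  have e1 : (1 / 2 + ((0 : ℝ) : ℂ) * Complex.I + ((0 : ℝ) : ℂ)) = 1 / 2 := by push_cast; ring
  have e2 : phi x 0 / 2 + κ = x / 4 + κ := by
    unfold phi
    rw [sub_zero, max_eq_left hx.le]
    field_simp
    ring
  rw [e1, e2] at h2
  have h3 : (D j t).Q 0 ^ (x / 4 + κ) < (D j t).Q 0 ^ b := Real.rpow_lt_rpow_of_exponent_lt hQ1 (by
    rw [hκ]
    linarith)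
  linarith

/-- (A) -/
lemma lawA (hθ0 : 0 ≤ θ) (hθ : θ < 1 / 2) (hC : 1 ≤ C) (hK : 0 ≤ K) (W : Weight32 θ C K D a) {β h x : ℝ}
    (hβ : 0 < β) (hh : 0 < h) (hx : 0 < x) (hxβ : x < 4 * β) : ∃ c R X : ℝ, 0 < c ∧ 0 < R ∧
      ∀ t : ℕ, Squarefree t → X ≤ t → (t : ℝ) ^ (1 / 4 + β) ≤ ‖a t‖ → ∃ j,
        AtLeast (D j t).L c h (c * Real.log t) ∧
        ENNReal.ofReal c ≤ volume {u : ℝ | |u| ≤ h ∧ (t : ℝ) ^ c ≤ ‖(D j t).L (1 / 2 + u * Complex.I)‖} ∧
        AtLeast ((D j t).flow x) c R (c * Real.log t) := by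
  obtain ⟨b, hb⟩ : ∃ b : ℝ, b = (β + x / 4) / 2 := ⟨_, rfl⟩
  have hb1 : b < β := by rw [hb]; linarith
  have hb2 : x < 4 * b := by rw [hb]; linarith
  have hb0 : 0 < b := by linarith
  obtain ⟨X1, H1⟩ := pick hK W (β := β) (γ := β + b) (by linarith)
  obtain ⟨c1, X2, hc1, H2⟩ := law1 hθ0 hθ hC W hβ hh
  obtain ⟨c2, R, X3, hc2, hR, H3⟩ := law2 hθ0 hθ hC W hx hb2
  obtain ⟨X4, H4⟩ := ((tendsto_rpow_atTop (show 0 < β - b by linarith)).eventually_ge_atTop
    (C ^ b)).exists_forall_of_atTop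
  refine ⟨min c1 c2, R, max (max X1 X2) (max X3 X4), lt_min hc1 hc2, hR, fun t ht hXt hbig => ?_⟩
  have g1 := ((le_max_left _ _).trans (le_max_left _ _)).trans hXt
  have g2 := ((le_max_right _ _).trans (le_max_left _ _)).trans hXt
  have g3 := ((le_max_left _ _).trans (le_max_right _ _)).trans hXt
  have g4 := ((le_max_right _ _).trans (le_max_right _ _)).trans hXt
  have ht1 := sq_one_le ht
  have ht0 : (0 : ℝ) < t := by linarith
  have hlog : 0 ≤ Real.log t := Real.log_nonneg ht1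
  obtain ⟨j, hj⟩ := H1 t ht g1 hbig
  have h1 : (t : ℝ) ^ β ≤ ‖(D j t).L (1 / 2)‖ :=
    (Real.rpow_le_rpow_of_exponent_le ht1 (by linarith)).trans hj
  have hQ0 : 0 ≤ (D j t).Q 0 := by linarith [Q_one_le (D j t) (W.standard j t ht).q_pos 0]
  have h2 : (D j t).Q 0 ^ b ≤ ‖(D j t).L (1 / 2)‖ := by
    refine le_trans ?_ hj
    calc (D j t).Q 0 ^ b ≤ (C * (t : ℝ) ^ 2) ^ b := Real.rpow_le_rpow hQ0 (W.upper j t ht) hb0.le
      _ = C ^ b * (t : ℝ) ^ (2 * b) := by
          rw [Real.mul_rpow (by linarith) (by positivity), ← Real.rpow_natCast, ← Real.rpow_mul ht0.le]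
          norm_num
      _ ≤ (t : ℝ) ^ (β - b) * (t : ℝ) ^ (2 * b) :=
          mul_le_mul_of_nonneg_right (H4 t g4) (Real.rpow_nonneg ht0.le _)
      _ = (t : ℝ) ^ (β + b) := by
          rw [← Real.rpow_add ht0]
          congr 1
          ring
  obtain ⟨⟨S, hS, hSc⟩, h4⟩ := H2 t ht g2 j h1
  obtain ⟨S', hS', hSc'⟩ := H3 t ht g3 j h2
  refine ⟨j, ⟨S, fun z hz => ?_, ?_⟩, ?_, S', fun z hz => ?_, ?_⟩
  · obtain ⟨h5, h6, h7⟩ := hS z hz
    exact ⟨h5, by linarith [min_le_left c1 c2], h7⟩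
  · exact (mul_le_mul_of_nonneg_right (min_le_left _ _) hlog).trans hSc
  · refine (ENNReal.ofReal_le_ofReal (min_le_left _ _)).trans (h4.trans (measure_mono ?_))
    rintro u ⟨h5, h6⟩
    exact ⟨h5, (Real.rpow_le_rpow_of_exponent_le ht1 (min_le_left _ _)).trans h6⟩
  · obtain ⟨h5, h6, h7⟩ := hS' z hz
    exact ⟨h5, by linarith [min_le_right c1 c2], h7⟩
  · exact (mul_le_mul_of_nonneg_right (min_le_right _ _) hlog).trans hSc'

/-- if large coefficients are impossible then the bound holds -/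
lemma bound_of {e : ℝ} (h : ∀ β : ℝ, e < β → ∃ X : ℝ, ∀ t : ℕ, Squarefree t → X ≤ t →
    ¬ ((t : ℝ) ^ β ≤ ‖a t‖)) : Bound a e := by
  intro ε hε
  obtain ⟨X, hX⟩ := h (e + ε) (by linarith)
  obtain ⟨M, hM⟩ := exists_nat_ge X
  have hB : ∀ t : ℕ, 0 ≤ ‖a t‖ * ((t : ℝ) ^ (e + ε))⁻¹ := fun t => by positivity
  refine ⟨1 + ∑ t ∈ Finset.range M, ‖a t‖ * ((t : ℝ) ^ (e + ε))⁻¹, fun t ht => ?_⟩
  have ht1 := sq_one_le ht
  have hpos : 0 < (t : ℝ) ^ (e + ε) := Real.rpow_pos_of_pos (by linarith) _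
  have hs : 0 ≤ ∑ t ∈ Finset.range M, ‖a t‖ * ((t : ℝ) ^ (e + ε))⁻¹ := Finset.sum_nonneg fun t _ => hB t
  rcases lt_or_ge t M with h1 | h1
  · have h2 := Finset.single_le_sum (f := fun t : ℕ => ‖a t‖ * ((t : ℝ) ^ (e + ε))⁻¹) (fun t _ => hB t)
      (Finset.mem_range.2 h1)
    have h3 : ‖a t‖ = ‖a t‖ * ((t : ℝ) ^ (e + ε))⁻¹ * (t : ℝ) ^ (e + ε) := by field_simp
    rw [h3]
    exact mul_le_mul_of_nonneg_right (by linarith) hpos.le
  · have h2 := hX t ht (hM.trans (by exact_mod_cast h1))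
    push Not at h2
    nlinarith

end main

/-- **Large coefficients and zeros near the centre.** -/
theorem result {J : ℕ} {θ C K : ℝ} (hθ0 : 0 ≤ θ) (hθ : θ < 1 / 2) (hC : 1 ≤ C) (hK : 0 ≤ K)
    (D : Fin J → ℕ → StdL 2) (a : ℕ → ℂ) (W : Weight32 θ C K D a) :
    -- (A) large coefficients
    (∀ β h x : ℝ, 0 < β → 0 < h → 0 < x → x < 4 * β → ∃ c R X : ℝ, 0 < c ∧ 0 < R ∧
      ∀ t : ℕ, Squarefree t → X ≤ t → (t : ℝ) ^ (1 / 4 + β) ≤ ‖a t‖ → ∃ j,
        AtLeast (D j t).L c h (c * Real.log t) ∧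
        ENNReal.ofReal c ≤ volume {u : ℝ | |u| ≤ h ∧ (t : ℝ) ^ c ≤ ‖(D j t).L (1 / 2 + u * Complex.I)‖} ∧
        AtLeast ((D j t).flow x) c R (c * Real.log t)) ∧
    -- (B) intermediate exponents
    (∀ x : ℝ, 0 < x → FewOff D x → Bound a (1 / 4 + x / 4)) ∧
    (∀ x R : ℝ, 1 < x → 0 < R → ForLarge fun t j => ∀ s : ℂ, |s.im| ≤ R → (D j t).flow x s = 0 → s.re = 1 / 2) ∧
    -- (C) criteria for Q1
    ((∃ h : ℝ, 0 < h ∧ ∀ η : ℝ, 0 < η → ForLarge fun t j => AtMost (D j t).L η h (η * Real.log t)) →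
      Bound a (1 / 4)) ∧
    ((∃ h : ℝ, 0 < h ∧ ∀ η : ℝ, 0 < η → ForLarge fun t j =>
        volume {u : ℝ | |u| ≤ h ∧ (t : ℝ) ^ η < ‖(D j t).L (1 / 2 + u * Complex.I)‖} ≤ ENNReal.ofReal η) →
      Bound a (1 / 4)) ∧
    ((∀ x : ℝ, 0 < x → FewOff D x) → Bound a (1 / 4)) := by
  have hB : ∀ x : ℝ, 0 < x → FewOff D x → Bound a (1 / 4 + x / 4) := by
    intro x hx h
    refine bound_of fun β hβ => ?_
    obtain ⟨c, R, X, hc, hR, H⟩ := lawA hθ0 hθ hC hK W (β := β - 1 / 4) (h := 1) (by linarith) one_pos hx (by linarith)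
    obtain ⟨X', hX'⟩ := h (c / 2) R (by positivity) hR
    refine ⟨max (max X X') 2, fun t ht hXt hbig => ?_⟩
    have ht2 : (2 : ℝ) ≤ t := (le_max_right _ _).trans hXt
    have hlog : 0 < Real.log t := Real.log_pos (by linarith)
    obtain ⟨j, -, -, S, hS, hSc⟩ := H t ht (((le_max_left _ _).trans (le_max_left _ _)).trans hXt) (by
      have e : 1 / 4 + (β - 1 / 4) = β := by ring
      rw [e]
      exact hbig)
    have h1 := hX' t ht (((le_max_right _ _).trans (le_max_left _ _)).trans hXt) j S (fun z hz => by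
      obtain ⟨h5, h6, h7⟩ := hS z hz
      exact ⟨h5, by linarith, h7⟩)
    nlinarith
  refine ⟨fun β h x hβ hh hx hxβ => lawA hθ0 hθ hC hK W hβ hh hx hxβ, hB, ?_, ?_, ?_, ?_⟩
  · intro x R hx hR
    obtain ⟨Q0, -, HQ⟩ := line_uncond (m := 2) (by norm_num) hθ0 hθ hx hR.le
    refine ⟨C * Q0, fun t ht hXt j s hs hz => ?_⟩
    have hS := W.standard j t ht
    have h1 : Q0 ≤ (D j t).Q 0 := le_of_mul_le_mul_left (hXt.trans (W.lower j t ht)) (by linarith)
    refine HQ _ _ _ _ _ (dat_of (D j t) hθ0 hθ hS) 0 (by rw [cq_eq]; exact h1) s (by simpa using hs) ?_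
    rw [cq_eq, XX_eq (D j t) hS.q_pos]
    exact hz
  · rintro ⟨h, hh, H0⟩
    refine bound_of fun β hβ => ?_
    obtain ⟨c, R, X, hc, hR, H⟩ := lawA hθ0 hθ hC hK W (β := β - 1 / 4) (h := h) (x := β - 1 / 4) (by linarith) hh
      (by linarith) (by linarith)
    obtain ⟨X', hX'⟩ := H0 (c / 2) (by positivity)
    refine ⟨max (max X X') 2, fun t ht hXt hbig => ?_⟩
    have ht2 : (2 : ℝ) ≤ t := (le_max_right _ _).trans hXt
    have hlog : 0 < Real.log t := Real.log_pos (by linarith)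
    obtain ⟨j, ⟨S, hS, hSc⟩, -⟩ := H t ht (((le_max_left _ _).trans (le_max_left _ _)).trans hXt) (by
      have e : 1 / 4 + (β - 1 / 4) = β := by ring
      rw [e]
      exact hbig)
    have h1 := hX' t ht (((le_max_right _ _).trans (le_max_left _ _)).trans hXt) j S (fun z hz => by
      obtain ⟨h5, h6, h7⟩ := hS z hz
      exact ⟨h5, by linarith, h7⟩)
    nlinarith
  · rintro ⟨h, hh, H0⟩
    refine bound_of fun β hβ => ?_
    obtain ⟨c, R, X, hc, hR, H⟩ := lawA hθ0 hθ hC hK W (β := β - 1 / 4) (h := h) (x := β - 1 / 4) (by linarith) hh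
      (by linarith) (by linarith)
    obtain ⟨X', hX'⟩ := H0 (c / 2) (by positivity)
    refine ⟨max (max X X') 2, fun t ht hXt hbig => ?_⟩
    have ht2 : (2 : ℝ) ≤ t := (le_max_right _ _).trans hXt
    obtain ⟨j, -, hv, -⟩ := H t ht (((le_max_left _ _).trans (le_max_left _ _)).trans hXt) (by
      have e : 1 / 4 + (β - 1 / 4) = β := by ring
      rw [e]
      exact hbig)
    have h1 := hX' t ht (((le_max_right _ _).trans (le_max_left _ _)).trans hXt) j
    have h2 : ENNReal.ofReal c ≤ ENNReal.ofReal (c / 2) := by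
      refine hv.trans (le_trans (measure_mono ?_) h1)
      rintro u ⟨h3, h4⟩
      exact ⟨h3, lt_of_lt_of_le (Real.rpow_lt_rpow_of_exponent_lt (by linarith) (by linarith)) h4⟩
    rw [ENNReal.ofReal_le_ofReal_iff (by positivity)] at h2
    linarith
  · intro h ε hε
    obtain ⟨B, hB'⟩ := hB (2 * ε) (by positivity) (h _ (by positivity)) (ε / 2) (by positivity)
    refine ⟨B, fun t ht => (hB' t ht).trans (le_of_eq ?_)⟩
    congr 2
    ring

end Pool.Agent.Results.MP_af11aa_nt.LargeCoefficientsH89
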