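import Pool.Agent.V7H35.W32C
import Pool.Agent.R482.ST.Star

/-!
# The Ramanujan bound in weight `3/2` at all integers near powers, orbits and other sequences

Let `F` be a cusp form of weight `3/2` on `Γ_0(N)` with any character, with the Fourier coefficients `A(n)`. Q1 asks for the
bound `A(n) ≪ n^{1/4 + ε}` at the squarefree `n`. We prove it for ALL integers `n` near the members of very sparse sequences.

Let `f_k`, `k = 0, 1, 2, …`, be positive functions on `(a, ∞)`, `a ≥ 0`, such that `f_k(t) / t` is nondecreasing, and such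
that the sequence `f_k(t)` has exponent of convergence at most `τ` for each `t > a`: for instance `f_k(t) = t ^ (v_k)` for
exponents `v_k ≥ 1` (`τ = 0`; all powers, the powers `t ^ (3 ^ k)` of Mills, …), the orbits `f_k(t) = g (g (⋯ g (t)))` of any
map `g` with `g(t) > t` and `g(t) / t` nondecreasing (`τ = 0`; for instance `t² + c`), and `f_k(t) = v_k t`. Let `θ < 1`.

* Let `0 < ε ≤ 1/2`. For all `α > a` outside a set of Hausdorff dimension at most `(1 - 2 ε + τ) / (1 - θ)` and all but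
  finitely many `k`, the bound `|A(n)| ≤ n^{1/4 + ε}` is true for EVERY integer `n ≥ 1` with `|n - f_k(α)| ≤ b f_k(α) ^ θ`.
* Let `τ = 0` (powers, orbits), and let `F_1, F_2, …` be countably many cusp forms of weight `3/2`, for example the members of
  bases of the spaces `S_{3/2}(24 p, χ)` for ALL primes `p` and characters `χ`. For almost every `α > a`: for ALL finite linear
  combinations `F` of the `F_i`, all `ε > 0` and all `θ < min(2 ε, 1)`, for all but finitely many `k`, the bound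
  `|A(n)| ≤ n^{1/4 + ε}` is true for EVERY integer `n ≥ 1` with `|n - f_k(α)| ≤ b f_k(α) ^ θ`.

So for almost every `α > 1` the coefficients at the integer parts of `α ^ k`, and at all integers near them, satisfy the bound
of Q1 for all `ε > 0`, simultaneously for all primes `p`, all characters and all cusp forms.

Proof. `y^{3/4} |F|` is bounded on the upper half-plane, so the mean square of the coefficients up to `X` is at most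
`C X^{3/2}` (Hecke, Rankin), and at most `X^{1 - 2 ε + o(1)}` of the `n ≤ X` are exceptions to `|A(n)| ≤ n^{1/4 + ε}`. The metric
theorem on starshaped sequences of the start library (`R482.ST`) does the rest. Everything is proved from the definition of
cusp forms.
-/

set_option autoImplicit false

namespace Pool.Agent.Results.MP_af11aa_nt.StarshapedSequencesH35

open MeasureTheory Filter Topology UpperHalfPlane
open Pool.Agent.V7H35.W32 (IsCuspForm count)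

/-- the functions `f n` are positive on `(a, ∞)`, `a ≥ 0`, and `f n x / x` is nondecreasing there -/
def Starshaped (a : ℝ) (f : ℕ → ℝ → ℝ) : Prop :=
  0 ≤ a ∧ ∀ n : ℕ, ∀ x y : ℝ, a < x → x ≤ y → 0 < f n x ∧ f n x / x ≤ f n y / y

/-- for each `x > a` the exponent of convergence of the sequence `f n x` is at most `τ` -/
def ExpLe (a : ℝ) (f : ℕ → ℝ → ℝ) (τ : ℝ) : Prop :=
  ∀ x : ℝ, a < x → ∀ t : ℝ, τ < t → Summable (fun n : ℕ => (f n x) ^ (-t))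

lemma transfer (Good : ℕ → Prop) {s : ℝ} (hs : 0 ≤ s)
    (hS : ∀ ε : ℝ, 0 < ε → ∃ C : ℝ, ∀ X : ℝ, 1 ≤ X → {n : ℕ | (1 ≤ n ∧ ¬ Good n) ∧ (n : ℝ) ≤ X}.Finite ∧
      ({n : ℕ | (1 ≤ n ∧ ¬ Good n) ∧ (n : ℝ) ≤ X}.ncard : ℝ) ≤ C * X ^ (s + ε))
    {a : ℝ} {f : ℕ → ℝ → ℝ} {τ θ : ℝ} (hf : Starshaped a f) (hτ : 0 ≤ τ) (hE : ExpLe a f τ) (hθ1 : θ < 1) :
    ∃ E : Set ℝ, dimH E ≤ ENNReal.ofReal ((s + τ) / (1 - θ)) ∧ ∀ α : ℝ, a < α → α ∉ E → ∀ b : ℝ,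
      ∃ k₀ : ℕ, ∀ k : ℕ, k₀ ≤ k → ∀ n : ℕ, 1 ≤ n → |(n : ℝ) - f k α| ≤ b * (f k α) ^ θ → Good n := by
  obtain ⟨E, h1, h2⟩ := Pool.Agent.R482.ST.windows {n : ℕ | 1 ≤ n ∧ ¬ Good n} (fun n : ℕ => (n : ℝ)) hf hτ hE hs hθ1 hS
  refine ⟨E, h1, fun α hα hαE b => ?_⟩
  obtain ⟨k₀, hk⟩ := h2 α hα hαE b
  refine ⟨k₀, fun k hk1 n hn h3 => ?_⟩
  by_contra hcon
  exact absurd h3 (not_le.2 (hk k hk1 n ⟨hn, hcon⟩))

lemma part1 {N : ℕ} {χ : DirichletCharacter ℂ N} {F : ℍ → ℂ} {A : ℕ → ℂ} (hN : 1 ≤ N) (hF : IsCuspForm N χ F A)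
    {a : ℝ} {f : ℕ → ℝ → ℝ} {τ θ : ℝ} (hf : Starshaped a f) (hτ : 0 ≤ τ) (hE : ExpLe a f τ) (hθ1 : θ < 1)
    {ε : ℝ} (hε : 0 < ε) (hε1 : ε ≤ 1 / 2) :
    ∃ E : Set ℝ, dimH E ≤ ENNReal.ofReal ((1 - 2 * ε + τ) / (1 - θ)) ∧ ∀ α : ℝ, a < α → α ∉ E → ∀ b : ℝ,
      ∃ k₀ : ℕ, ∀ k : ℕ, k₀ ≤ k → ∀ n : ℕ, 1 ≤ n → |(n : ℝ) - f k α| ≤ b * (f k α) ^ θ →
        ‖A n‖ ≤ (n : ℝ) ^ (1 / 4 + ε) := by
  haveI : NeZero N := ⟨by omega⟩
  exact transfer (fun n => ‖A n‖ ≤ (n : ℝ) ^ (1 / 4 + ε)) (by linarith) (count hF hε hε1) hf hτ hE hθ1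

lemma null_of_dimH {E : Set ℝ} {r : ℝ} (h : dimH E ≤ ENNReal.ofReal r) (hr : r < 1) : volume E = 0 := by
  have h1 : dimH E < ((1 : NNReal) : ENNReal) := by
    rw [ENNReal.coe_one]
    exact lt_of_le_of_lt h (ENNReal.ofReal_lt_one.2 hr)
  refine measure_zero_of_dimH_lt (μ := volume) (d := 1) ?_ h1
  rw [NNReal.coe_one, hausdorffMeasure_real]

lemma tends {a : ℝ} {f : ℕ → ℝ → ℝ} (hf : Starshaped a f) (hE : ExpLe a f 0) {α : ℝ} (hα : a < α) :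
    Tendsto (fun k => f k α) atTop atTop := by
  have h1 := (hE α hα 1 one_pos).tendsto_atTop_zero
  have hpos : ∀ k, 0 < f k α := fun k => (hf.2 k α α hα le_rfl).1
  rw [tendsto_atTop]
  intro T
  have h2 : ∀ᶠ k in atTop, (f k α) ^ (-1 : ℝ) < 1 / (|T| + 1) :=
    h1.eventually (gt_mem_nhds (by positivity))
  filter_upwards [h2] with k hk
  rw [Real.rpow_neg_one, inv_eq_one_div, one_div_lt_one_div (hpos k) (by positivity)] at hk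
  linarith [le_abs_self T]

lemma part2 (N : ℕ → ℕ) (χ : ∀ i, DirichletCharacter ℂ (N i)) (F : ℕ → ℍ → ℂ) (A : ℕ → ℕ → ℂ) (hN : ∀ i, 1 ≤ N i)
    (hF : ∀ i, IsCuspForm (N i) (χ i) (F i) (A i)) (a : ℝ) (f : ℕ → ℝ → ℝ) (hf : Starshaped a f) (hE : ExpLe a f 0) :
    ∀ᵐ α : ℝ, a < α → ∀ (s : Finset ℕ) (c : ℕ → ℂ) (ε θ b : ℝ), 0 < ε → θ < 2 * ε → θ < 1 →
      ∃ k₀ : ℕ, ∀ k : ℕ, k₀ ≤ k → ∀ n : ℕ, 1 ≤ n → |(n : ℝ) - f k α| ≤ b * (f k α) ^ θ →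
        ‖∑ i ∈ s, c i * A i n‖ ≤ (n : ℝ) ^ (1 / 4 + ε) := by
  classical
  have hex : ∀ p : ℕ × ℚ × ℚ, ∃ E : Set ℝ, volume E = 0 ∧
      (0 < (p.2.1 : ℝ) → (p.2.1 : ℝ) ≤ 1 / 2 → (p.2.2 : ℝ) < 2 * p.2.1 → ∀ α : ℝ, a < α → α ∉ E → ∀ b : ℝ,
        ∃ k₀ : ℕ, ∀ k : ℕ, k₀ ≤ k → ∀ n : ℕ, 1 ≤ n → |(n : ℝ) - f k α| ≤ b * (f k α) ^ (p.2.2 : ℝ) →
          ‖A p.1 n‖ ≤ (n : ℝ) ^ (1 / 4 + (p.2.1 : ℝ))) := by
    rintro ⟨i, e, t⟩
    by_cases hc : 0 < (e : ℝ) ∧ (e : ℝ) ≤ 1 / 2 ∧ (t : ℝ) < 2 * e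
    · obtain ⟨h1, h2, h3⟩ := hc
      have ht1 : (t : ℝ) < 1 := by linarith
      obtain ⟨E, hE1, hE2⟩ := part1 (hN i) (hF i) hf le_rfl hE ht1 h1 h2
      refine ⟨E, null_of_dimH hE1 ?_, fun _ _ _ => hE2⟩
      rw [div_lt_one (by linarith)]
      linarith
    · refine ⟨∅, measure_empty, fun h1 h2 h3 => absurd ⟨h1, h2, h3⟩ hc⟩
  choose E hE0 hE1 using hex
  have hnull : volume (⋃ p, E p) = 0 := measure_iUnion_null hE0
  filter_upwards [measure_eq_zero_iff_ae_notMem.1 hnull] with α hα haα s c ε θ b hε hθ hθ1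
  have hα' : ∀ p, α ∉ E p := fun p hp => hα (Set.mem_iUnion.2 ⟨p, hp⟩)
  obtain ⟨e, he1, he2⟩ := exists_rat_btwn (show max (θ / 2) 0 < min ε (1 / 2) by
    rw [max_lt_iff, lt_min_iff, lt_min_iff]
    exact ⟨⟨by linarith, by linarith⟩, hε, by norm_num⟩)
  rw [max_lt_iff] at he1
  rw [lt_min_iff] at he2
  obtain ⟨t, ht1, ht2⟩ := exists_rat_btwn (show θ < 2 * (e : ℝ) by linarith [he1.1])
  have hk : ∀ i : ℕ, ∃ k₀ : ℕ, ∀ k : ℕ, k₀ ≤ k → ∀ n : ℕ, 1 ≤ n → |(n : ℝ) - f k α| ≤ |b| * (f k α) ^ (t : ℝ) →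
      ‖A i n‖ ≤ (n : ℝ) ^ (1 / 4 + (e : ℝ)) := fun i =>
    hE1 (i, e, t) he1.2 he2.2.le ht2 α haα (hα' _) |b|
  choose k₀ hk₀ using hk
  have hT := tends hf hE haα
  have ht1' : 0 < 1 - (t : ℝ) := by linarith [he2.2]
  have hee : 0 < ε - e := by linarith [he2.1]
  have c1 : ∀ᶠ x : ℝ in atTop, 1 ≤ x := eventually_ge_atTop 1
  have c2 : ∀ᶠ x : ℝ in atTop, 2 * |b| ≤ x ^ (1 - (t : ℝ)) := (tendsto_rpow_atTop ht1').eventually_ge_atTop _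
  have c3 : ∀ᶠ x : ℝ in atTop, ∑ i ∈ s, ‖c i‖ ≤ (x / 2) ^ (ε - e) :=
    ((tendsto_rpow_atTop hee).comp (tendsto_id.atTop_div_const two_pos)).eventually_ge_atTop _
  have c4 := hT.eventually ((c1.and c2).and c3)
  obtain ⟨K, hK⟩ := eventually_atTop.1 c4
  refine ⟨max K (s.sup k₀), fun k hk n hn hnk => ?_⟩
  obtain ⟨⟨d1, d2⟩, d3⟩ := hK k ((le_max_left _ _).trans hk)
  have hfpos : 0 < f k α := by linarith
  have g1 : (f k α) ^ θ ≤ (f k α) ^ (t : ℝ) := Real.rpow_le_rpow_of_exponent_le d1 ht1.le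
  have g2 : |(n : ℝ) - f k α| ≤ |b| * (f k α) ^ (t : ℝ) := hnk.trans
    ((mul_le_mul_of_nonneg_right (le_abs_self b) (Real.rpow_nonneg hfpos.le _)).trans
      (mul_le_mul_of_nonneg_left g1 (abs_nonneg b)))
  have g3 : |b| * (f k α) ^ (t : ℝ) ≤ f k α / 2 := by
    have h5 : f k α = (f k α) ^ (1 - (t : ℝ)) * (f k α) ^ (t : ℝ) := by
      rw [← Real.rpow_add hfpos, sub_add_cancel, Real.rpow_one]
    have h6 : 2 * |b| * (f k α) ^ (t : ℝ) ≤ (f k α) ^ (1 - (t : ℝ)) * (f k α) ^ (t : ℝ) :=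
      mul_le_mul_of_nonneg_right d2 (Real.rpow_nonneg hfpos.le _)
    rw [← h5] at h6
    linarith
  have g4 : f k α / 2 ≤ n := by
    have h7 := (abs_le.1 (g2.trans g3)).1
    linarith
  have hn0 : (0 : ℝ) < n := by linarith
  have g5 : ∀ i ∈ s, ‖A i n‖ ≤ (n : ℝ) ^ (1 / 4 + (e : ℝ)) := fun i hi =>
    hk₀ i k ((Finset.le_sup hi).trans ((le_max_right _ _).trans hk)) n hn g2
  have g6 : ∑ i ∈ s, ‖c i‖ ≤ (n : ℝ) ^ (ε - e) :=
    d3.trans (Real.rpow_le_rpow (by linarith) g4 hee.le)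
  calc ‖∑ i ∈ s, c i * A i n‖ ≤ ∑ i ∈ s, ‖c i‖ * ‖A i n‖ := by
        refine (norm_sum_le _ _).trans (le_of_eq ?_)
        exact Finset.sum_congr rfl fun i _ => norm_mul _ _
    _ ≤ ∑ i ∈ s, ‖c i‖ * (n : ℝ) ^ (1 / 4 + (e : ℝ)) :=
        Finset.sum_le_sum fun i hi => mul_le_mul_of_nonneg_left (g5 i hi) (norm_nonneg _)
    _ = (∑ i ∈ s, ‖c i‖) * (n : ℝ) ^ (1 / 4 + (e : ℝ)) := by rw [Finset.sum_mul]
    _ ≤ (n : ℝ) ^ (ε - e) * (n : ℝ) ^ (1 / 4 + (e : ℝ)) :=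
        mul_le_mul_of_nonneg_right g6 (Real.rpow_nonneg hn0.le _)
    _ = (n : ℝ) ^ (1 / 4 + ε) := by
        rw [← Real.rpow_add hn0]
        congr 1
        ring

/-- **The Ramanujan bound in weight `3/2` near powers, orbits and other sequences.** (1) Let `F` be a cusp form of weight
`3/2` on `Γ_0(N)` with the character `χ` and the coefficients `A(n)`, let `f` be starshaped functions on `(a, ∞)` of exponent
of convergence at most `τ ≥ 0`, `θ < 1` and `0 < ε ≤ 1/2`. There is a set `E` of Hausdorff dimension at most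
`(1 - 2 ε + τ) / (1 - θ)` such that for all `α > a` outside `E` and all `b`, for all but finitely many `k`, EVERY integer
`n ≥ 1` with `|n - f_k(α)| ≤ b f_k(α) ^ θ` satisfies `|A(n)| ≤ n^{1/4 + ε}`. (2) Let `F_i` be countably many such cusp forms
(of any levels and characters) with the coefficients `A_i(n)`, and `f` starshaped of exponent `0`. For almost every `α > a`:
for all finite linear combinations `∑ c_i A_i(n)` and all `ε > 0`, `θ < min(2 ε, 1)` and `b`, for all but finitely many `k`,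
EVERY integer `n ≥ 1` with `|n - f_k(α)| ≤ b f_k(α) ^ θ` satisfies `|∑ c_i A_i(n)| ≤ n^{1/4 + ε}`. (3) - (5) Examples: the
functions `v_n x`, `x ^ (v_n)` and the iterates of a map. -/
theorem result :
    (∀ (N : ℕ) (χ : DirichletCharacter ℂ N) (F : ℍ → ℂ) (A : ℕ → ℂ), 1 ≤ N → IsCuspForm N χ F A →
      ∀ (a : ℝ) (f : ℕ → ℝ → ℝ) (τ θ : ℝ), Starshaped a f → 0 ≤ τ → ExpLe a f τ → θ < 1 →
      ∀ ε : ℝ, 0 < ε → ε ≤ 1 / 2 →
      ∃ E : Set ℝ, dimH E ≤ ENNReal.ofReal ((1 - 2 * ε + τ) / (1 - θ)) ∧ ∀ α : ℝ, a < α → α ∉ E → ∀ b : ℝ,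
        ∃ k₀ : ℕ, ∀ k : ℕ, k₀ ≤ k → ∀ n : ℕ, 1 ≤ n → |(n : ℝ) - f k α| ≤ b * (f k α) ^ θ →
          ‖A n‖ ≤ (n : ℝ) ^ (1 / 4 + ε)) ∧
    (∀ (N : ℕ → ℕ) (χ : ∀ i, DirichletCharacter ℂ (N i)) (F : ℕ → ℍ → ℂ) (A : ℕ → ℕ → ℂ), (∀ i, 1 ≤ N i) →
      (∀ i, IsCuspForm (N i) (χ i) (F i) (A i)) → ∀ (a : ℝ) (f : ℕ → ℝ → ℝ), Starshaped a f → ExpLe a f 0 →
      ∀ᵐ α : ℝ, a < α → ∀ (s : Finset ℕ) (c : ℕ → ℂ) (ε θ b : ℝ), 0 < ε → θ < 2 * ε → θ < 1 →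
        ∃ k₀ : ℕ, ∀ k : ℕ, k₀ ≤ k → ∀ n : ℕ, 1 ≤ n → |(n : ℝ) - f k α| ≤ b * (f k α) ^ θ →
          ‖∑ i ∈ s, c i * A i n‖ ≤ (n : ℝ) ^ (1 / 4 + ε)) ∧
    (∀ (v : ℕ → ℝ) (τ : ℝ), (∀ n, 0 < v n) → (∀ t : ℝ, τ < t → Summable (fun n : ℕ => (v n) ^ (-t))) →
      Starshaped 0 (fun n x => v n * x) ∧ ExpLe 0 (fun n x => v n * x) τ) ∧
    (∀ v : ℕ → ℝ, (∀ n, 1 ≤ v n) → (∀ t : ℝ, 0 < t → Summable fun n : ℕ => Real.exp (-(t * v n))) →
      Starshaped 1 (fun n x => x ^ (v n)) ∧ ExpLe 1 (fun n x => x ^ (v n)) 0) ∧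
    (∀ (a : ℝ) (g : ℝ → ℝ), 0 ≤ a → (∀ x y : ℝ, a < x → x ≤ y → g x / x ≤ g y / y) → (∀ x : ℝ, a < x → x < g x) →
      Starshaped a (fun n x => g^[n] x) ∧ ExpLe a (fun n x => g^[n] x) 0) :=
  ⟨fun _ _ _ _ hN hF _ _ _ _ hf hτ hE hθ _ hε hε1 => part1 hN hF hf hτ hE hθ hε hε1, part2,
    Pool.Agent.R482.ST.ex_mul, Pool.Agent.R482.ST.ex_pow, Pool.Agent.R482.ST.ex_orbit⟩

end Pool.Agent.Results.MP_af11aa_nt.StarshapedSequencesH35
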